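import Pool.Agent.helper13.WE.Comp

/-!
# The Diophantine problem of the monoid `⟨b, c | bcbc = 1⟩` is decidable

The monoid is isomorphic to `⟨a, b', u | a b' = 1, u u = 1⟩` via `a = b`, `b' = cbc`, `u = bc`
(so `c = b' u`).  A product of two reduced words `X`, `Y` has the reduced form `X' Y'` where
`X = X' P`, `Y = P̄ Y'` and `P` is a word over `{a, u}`; here the bar reverses words, exchanges `a`
and `b'` and fixes `u`.  Replacing `u` by `v v̄` turns systems of equations over the monoid into
systems of word equations over the free monoid on `{a, ā, v, v̄}` with involution, with a regular
constraint for the words `P`.  The files in `Pool/Agent/helper13/WE` prove, by recompression, a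
primitive recursive bound for the length of shortest solutions of such systems with constraints
given by a finite monoid; the decision procedure is a bounded search.
-/

namespace Pool.Agent.Results.MP_3804ec_al.DiophantineDecidable

/-- The defining relation `bcbc = 1`: the generator `b` is `false`, the generator `c` is `true`. -/
def rel : FreeMonoid Bool → FreeMonoid Bool → Prop := fun x y =>
  x = FreeMonoid.of false * FreeMonoid.of true * FreeMonoid.of false * FreeMonoid.of true ∧ y = 1

/-- The monoid `⟨b, c | bcbc = 1⟩`. -/
abbrev M : Type := PresentedMonoid rel

/-- A symbol is a generator (`Sum.inl false` is `b`, `Sum.inl true` is `c`) or one of the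
variables `X 0, X 1, ...` (`Sum.inr n` is `X n`). -/
abbrev Symbol : Type := Bool ⊕ ℕ

/-- A finite system of equations with constants: a list of pairs of words. -/
abbrev System : Type := List (List Symbol × List Symbol)

/-- The value in `M` of a word under an assignment of elements of `M` to the variables. -/
def value (σ : ℕ → M) (U : List Symbol) : M :=
  (U.map (Sum.elim (PresentedMonoid.of rel) σ)).prod

/-- The system has a solution in `M`. -/
def Solvable (S : System) : Prop := ∃ σ : ℕ → M, ∀ e ∈ S, value σ e.1 = value σ e.2

/-- The Diophantine problem of `M` is decidable. -/
theorem result : ComputablePred Solvable :=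
  Pool.Agent.helper13.WE.diophantine_computable

end Pool.Agent.Results.MP_3804ec_al.DiophantineDecidable
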